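import Pool.Agent.helper61.Y2.Spec

set_option autoImplicit false

/-!
# Project Y2 (MP_752b23_lc), row D1
-/

namespace H61.Y2

open H61.Yorioka Cardinal

theorem D1_lin (a i : ℕ) (h : 2 * a + 1 ≤ i) : 2 ^ a * i ≤ 2 ^ i := by
  obtain ⟨r, rfl⟩ : ∃ r, i = a + (r + 1) := ⟨i - a - 1, by omega⟩
  have h1 : r < 2 ^ r := Nat.lt_two_pow_self
  have h2 : a + (r + 1) ≤ 2 ^ (r + 1) := by
    rw [pow_succ]
    omega
  calc 2 ^ a * (a + (r + 1)) ≤ 2 ^ a * 2 ^ (r + 1) := Nat.mul_le_mul_left _ h2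
    _ = 2 ^ (a + (r + 1)) := by rw [← pow_add]

theorem D1_large (e : ℕ → ℕ) (he : EE e) (C : ℕ) :
    ∃ m, ∀ i ≥ m, (e i + 2 * i) * 2 ^ C ≤ 2 ^ i := by
  obtain ⟨m, hm⟩ := he (2 ^ (C + 1))
  refine ⟨max m (2 * (C + 2) + 1), fun i hi => ?_⟩
  have h1 := hm i (le_trans (le_max_left _ _) hi)
  have h2 := D1_lin (C + 2) i (le_trans (le_max_right _ _) hi)
  have h3 : 2 * ((e i + 2 * i) * 2 ^ C) = 2 ^ (C + 1) * e i + 2 ^ (C + 2) * i := by ring
  omega

open Classical in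
theorem D1 : D1_stmt := by
  intro e he
  let Q : ℕ → ℕ → Prop := fun j d => ∀ i ≥ j, (e i + 2 * i) * 2 ^ d ≤ 2 ^ i
  refine ⟨fun j => Nat.findGreatest (Q j) j, ?_, ?_, ?_, ?_⟩
  · intro j j' hjj
    refine Nat.findGreatest_mono ?_ hjj
    intro d hd i hi
    exact hd i (le_trans hjj hi)
  · intro C
    obtain ⟨m, hm⟩ := D1_large e he C
    refine ⟨max m C, ?_⟩
    refine Nat.le_findGreatest (le_max_right _ _) ?_
    intro i hi
    exact hm i (le_trans (le_max_left _ _) hi)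
  · intro j
    exact Nat.findGreatest_le j
  · obtain ⟨m, hm⟩ := D1_large e he 0
    refine ⟨m, fun j hj => ?_⟩
    have h1 : Q j 0 := fun i hi => hm i (le_trans hj hi)
    have h2 : Q j (Nat.findGreatest (Q j) j) := Nat.findGreatest_spec (Nat.zero_le j) h1
    exact h2 j le_rfl

end H61.Y2
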