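import Pool.Agent.helper61.Y2.Spec

set_option autoImplicit false

/-!
# Project Y2 (MP_752b23_lc), row D3
-/

namespace H61.Y2

open H61.Yorioka Cardinal

theorem D3 : D3_stmt := by
  intro e D he hD k
  obtain ⟨m, hm⟩ := he (2 * k)
  obtain ⟨j0, hj0⟩ := hD.unb (2 * (k + 3))
  refine ⟨max m j0, fun j hj => ?_⟩
  have h1 := hm j (le_trans (le_max_left _ _) hj)
  have h2 : 2 * (k + 3) ≤ D j := le_trans hj0 (hD.mono (le_trans (le_max_right _ _) hj))
  have h3 : D j ≤ j := hD.le j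
  have h4 : D (j - D j + 1) ≤ D j := hD.mono (by omega)
  have h5 : j - D j + 1 + (D (j - D j + 1) / 2 + 1) + (k + 1) ≤ j := by omega
  generalize j - D j + 1 + (D (j - D j + 1) / 2 + 1) = E at h5 ⊢
  unfold KK
  rw [← pow_add, ← pow_mul]
  refine Nat.pow_le_pow_right (by norm_num) ?_
  have h6 : k < 2 ^ k := Nat.lt_two_pow_self
  have h7 : 2 * (2 ^ E * k) ≤ 2 ^ j := by
    calc 2 * (2 ^ E * k) ≤ 2 * (2 ^ E * 2 ^ k) :=
          Nat.mul_le_mul_left _ (Nat.mul_le_mul_left _ h6.le)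
      _ = 2 ^ (E + (k + 1)) := by ring
      _ ≤ 2 ^ j := Nat.pow_le_pow_right (by norm_num) h5
  have h8 : 2 * ((e j + 2 ^ E) * k) = 2 * k * e j + 2 * (2 ^ E * k) := by ring
  omega

end H61.Y2
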